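import Mathlib

set_option autoImplicit false

namespace Pool.Agent.H.MP_ded0ac_co

open Set MeasureTheory Real

def cr (x y : ℂ) : ℝ := x.re * y.im - x.im * y.re

noncomputable def dt (a : ℝ) (x : ℂ) : ℝ := x.re * cos a + x.im * sin a

def tri (A B : ℂ) : Set ℂ := {x | ∃ s t : ℝ, 0 ≤ s ∧ 0 ≤ t ∧ s + t ≤ 1 ∧ x = s • A + t • B}

lemma vol_std : volume {x : ℂ | 0 ≤ x.re ∧ x.re ≤ 1 ∧ 0 ≤ x.im ∧ x.im ≤ 1 - x.re}
    = ENNReal.ofReal (1 / 2) := by
  have hS : MeasurableSet {p : ℝ × ℝ | 0 ≤ p.1 ∧ p.1 ≤ 1 ∧ 0 ≤ p.2 ∧ p.2 ≤ 1 - p.1} := by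
    apply IsClosed.measurableSet
    refine (isClosed_le continuous_const continuous_fst).inter
      ((isClosed_le continuous_fst continuous_const).inter
      ((isClosed_le continuous_const continuous_snd).inter
      (isClosed_le continuous_snd (continuous_const.sub continuous_fst))))
  have h1 := Complex.volume_preserving_equiv_real_prod.measure_preimage_equiv
    {p : ℝ × ℝ | 0 ≤ p.1 ∧ p.1 ≤ 1 ∧ 0 ≤ p.2 ∧ p.2 ≤ 1 - p.1}
  have h2 : (Complex.measurableEquivRealProd ⁻¹'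
      {p : ℝ × ℝ | 0 ≤ p.1 ∧ p.1 ≤ 1 ∧ 0 ≤ p.2 ∧ p.2 ≤ 1 - p.1})
      = {x : ℂ | 0 ≤ x.re ∧ x.re ≤ 1 ∧ 0 ≤ x.im ∧ x.im ≤ 1 - x.re} := by
    ext x; simp [Complex.measurableEquivRealProd_apply]
  rw [← h2, h1, Measure.volume_eq_prod, Measure.prod_apply hS]
  have h3 : (fun x : ℝ => volume (Prod.mk x ⁻¹'
      {p : ℝ × ℝ | 0 ≤ p.1 ∧ p.1 ≤ 1 ∧ 0 ≤ p.2 ∧ p.2 ≤ 1 - p.1}))
      = (Icc (0:ℝ) 1).indicator (fun x => ENNReal.ofReal (1 - x)) := by
    funext x
    by_cases hx : x ∈ Icc (0:ℝ) 1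
    · rw [indicator_of_mem hx]
      have : (Prod.mk x ⁻¹' {p : ℝ × ℝ | 0 ≤ p.1 ∧ p.1 ≤ 1 ∧ 0 ≤ p.2 ∧ p.2 ≤ 1 - p.1})
          = Icc 0 (1 - x) := by
        ext y; simp [hx.1, hx.2]
      rw [this, Real.volume_Icc, sub_zero]
    · rw [indicator_of_notMem hx]
      have : (Prod.mk x ⁻¹' {p : ℝ × ℝ | 0 ≤ p.1 ∧ p.1 ≤ 1 ∧ 0 ≤ p.2 ∧ p.2 ≤ 1 - p.1})
          = ∅ := by
        ext y
        simp only [mem_preimage, mem_setOf_eq, mem_empty_iff_false, iff_false]
        intro h; exact hx ⟨h.1, h.2.1⟩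
      rw [this, measure_empty]
  rw [h3, lintegral_indicator measurableSet_Icc]
  have hi : IntegrableOn (fun x : ℝ => 1 - x) (Icc (0:ℝ) 1) :=
    (continuous_const.sub continuous_id).continuousOn.integrableOn_Icc
  rw [← ofReal_integral_eq_lintegral_ofReal hi]
  · rw [integral_Icc_eq_integral_Ioc, ← intervalIntegral.integral_of_le zero_le_one]
    rw [intervalIntegral.integral_sub (by simp) (by simp)]
    congr 1
    simp; norm_num
  · filter_upwards [ae_restrict_mem measurableSet_Icc] with x hx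
    simp only [Pi.zero_apply]; linarith [hx.2]

noncomputable def lm (A B : ℂ) : ℂ →ₗ[ℝ] ℂ :=
  (Complex.reLm).smulRight A + (Complex.imLm).smulRight B

lemma det_lm (A B : ℂ) : LinearMap.det (lm A B) = cr A B := by
  rw [← LinearMap.det_toMatrix Complex.basisOneI, Matrix.det_fin_two]
  simp [LinearMap.toMatrix_apply, lm, cr]
  ring

lemma vol_tri (A B : ℂ) : volume (tri A B) = ENNReal.ofReal (|cr A B| / 2) := by
  have : tri A B = lm A B '' {x : ℂ | 0 ≤ x.re ∧ x.re ≤ 1 ∧ 0 ≤ x.im ∧ x.im ≤ 1 - x.re} := by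
    ext x
    constructor
    · rintro ⟨s, t, hs, ht, hst, rfl⟩
      refine ⟨⟨s, t⟩, ⟨hs, by simp; linarith, ht, by simp; linarith⟩, by simp [lm]⟩
    · rintro ⟨y, ⟨h1, h2, h3, h4⟩, rfl⟩
      exact ⟨y.re, y.im, h1, h3, by linarith, by simp [lm]⟩
  rw [this, Measure.addHaar_image_linearMap, det_lm, vol_std,
    ← ENNReal.ofReal_mul (abs_nonneg _)]
  congr 1; ring

lemma cone2 {A B x : ℂ} (h : 0 < cr A B) (h1 : 0 ≤ cr A x) (h2 : cr B x ≤ 0) :
    ∃ s t : ℝ, 0 ≤ s ∧ 0 ≤ t ∧ x = s • A + t • B := by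
  refine ⟨-cr B x / cr A B, cr A x / cr A B, div_nonneg (by linarith) h.le,
    div_nonneg h1 h.le, ?_⟩
  have h0 := h.ne'
  apply Complex.ext
  · simp only [Complex.add_re, Complex.smul_re, smul_eq_mul]
    field_simp
    simp only [cr]; ring
  · simp only [Complex.add_im, Complex.smul_im, smul_eq_mul]
    field_simp
    simp only [cr]; ring

noncomputable def E (a : ℝ) : ℂ := ⟨cos a, sin a⟩

lemma E_eq (a : ℝ) : Complex.exp (a * Complex.I) = E a := by
  apply Complex.ext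
  · simp [E, Complex.exp_ofReal_mul_I_re]
  · simp [E, Complex.exp_ofReal_mul_I_im]

lemma E_per (a : ℝ) (k : ℤ) : E (a + k * (2 * π)) = E a := by
  simp [E, cos_add_int_mul_two_pi, sin_add_int_mul_two_pi]

lemma sector (φ δ : ℝ) (hδ : 0 < δ) (hδ' : δ ≤ π) (x : ℂ) :
    ∃ j : ℤ, 0 ≤ cr (E (φ + j * δ)) x ∧ cr (E (φ + (j + 1 : ℤ) * δ)) x ≤ 0 := by
  have hx : ∀ a, cr (E a) x = ‖x‖ * sin (x.arg - a) := by
    intro a
    have h1 := Complex.norm_mul_cos_arg x
    have h2 := Complex.norm_mul_sin_arg x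
    simp only [cr, E, sin_sub]
    rw [← h1, ← h2]
    simp only [h1, h2]
    linear_combination (-cos a) * h2 + (sin a) * h1
  refine ⟨⌊(x.arg - φ) / δ⌋, ?_, ?_⟩
  · rw [hx]
    have h1 := Int.floor_le ((x.arg - φ) / δ)
    have h2 := Int.lt_floor_add_one ((x.arg - φ) / δ)
    rw [le_div_iff₀ hδ] at h1
    rw [div_lt_iff₀ hδ] at h2
    apply mul_nonneg (norm_nonneg _)
    apply sin_nonneg_of_nonneg_of_le_pi <;> nlinarith
  · rw [hx]
    have h1 := Int.floor_le ((x.arg - φ) / δ)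
    have h2 := Int.lt_floor_add_one ((x.arg - φ) / δ)
    rw [le_div_iff₀ hδ] at h1
    rw [div_lt_iff₀ hδ] at h2
    apply mul_nonpos_of_nonneg_of_nonpos (norm_nonneg _)
    push_cast
    apply sin_nonpos_of_nonpos_of_neg_pi_le <;> nlinarith

lemma ray_frontier {U : Set ℂ} {M : ℝ} (hM : ∀ y ∈ U, ‖y‖ ≤ M) {x : ℂ} (hx : x ∈ U)
    (h0 : x ≠ 0) : ∃ l : ℝ, 1 ≤ l ∧ l • x ∈ frontier U := by
  by_contra hc
  push Not at hc
  have hpc : IsPreconnected ((fun l : ℝ => l • x) '' Ici 1) :=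
    isPreconnected_Ici.image _ (by fun_prop)
  have hsub : ((fun l : ℝ => l • x) '' Ici 1) ⊆ interior U ∪ (closure U)ᶜ := by
    rintro _ ⟨l, hl, rfl⟩
    by_cases h : l • x ∈ closure U
    · left
      by_contra h'
      exact hc l hl ⟨h, h'⟩
    · right; exact h
  have hd : Disjoint (interior U) (closure U)ᶜ :=
    disjoint_compl_right.mono_left (interior_subset.trans subset_closure)
  have hn : 0 < ‖x‖ := norm_pos_iff.2 h0
  have hM0 : ‖x‖ ≤ M := hM x hx
  rcases hpc.subset_or_subset isOpen_interior isClosed_closure.isOpen_compl hd hsub with h | h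
  · have h1 : (M / ‖x‖ + 1) • x ∈ interior U := h ⟨M / ‖x‖ + 1, by
      have : 0 ≤ M / ‖x‖ := div_nonneg (by linarith) hn.le
      simp only [mem_Ici]; linarith, rfl⟩
    have h2 := hM _ (interior_subset h1)
    have h3 : 0 ≤ M / ‖x‖ + 1 := by
      have : 0 ≤ M / ‖x‖ := div_nonneg (by linarith) hn.le
      linarith
    rw [norm_smul, Real.norm_of_nonneg h3, add_mul, div_mul_cancel₀ _ hn.ne'] at h2
    linarith
  · exact h ⟨1, self_mem_Ici, rfl⟩ (subset_closure (by simpa using hx))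

lemma seg_tri {A B x : ℂ} {l : ℝ} (hl : 1 ≤ l) (h : l • x ∈ segment ℝ A B) : x ∈ tri A B := by
  obtain ⟨s, t, hs, ht, hst, e⟩ := h
  have l0 : 0 < l := by linarith
  refine ⟨s / l, t / l, div_nonneg hs l0.le, div_nonneg ht l0.le, ?_, ?_⟩
  · rw [← add_div, hst, div_le_one l0]; exact hl
  · have : x = l⁻¹ • (l • x) := by rw [smul_smul, inv_mul_cancel₀ l0.ne', one_smul]
    rw [this, ← e, smul_add, smul_smul, smul_smul, div_eq_inv_mul, div_eq_inv_mul]

noncomputable def L (a h t : ℝ) : ℂ := ⟨h * cos a - t * sin a, h * sin a + t * cos a⟩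

lemma dt_L (a h t : ℝ) : dt a (L a h t) = h := by
  simp only [dt, L]; linear_combination h * sin_sq_add_cos_sq a

lemma cr_L (a h t t' : ℝ) : cr (L a h t) (L a h t') = h * (t' - t) := by
  simp only [cr, L]; linear_combination h * (t' - t) * sin_sq_add_cos_sq a

lemma L_per (a h t : ℝ) (k : ℤ) : L (a + k * (2 * π)) h t = L a h t := by
  simp [L, cos_add_int_mul_two_pi, sin_add_int_mul_two_pi]

lemma L_comb (a h t t' u v : ℝ) (huv : u + v = 1) :
    u • L a h t + v • L a h t' = L a h (u * t + v * t') := by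
  apply Complex.ext
  · simp only [L, Complex.add_re, Complex.smul_re, smul_eq_mul]
    linear_combination (h * cos a) * huv
  · simp only [L, Complex.add_im, Complex.smul_im, smul_eq_mul]
    linear_combination (h * sin a) * huv

lemma mem_seg_L {a h t t' : ℝ} (htt : t ≤ t') {x : ℂ} :
    x ∈ segment ℝ (L a h t) (L a h t') ↔ ∃ r, t ≤ r ∧ r ≤ t' ∧ x = L a h r := by
  constructor
  · rintro ⟨u, v, hu, hv, huv, rfl⟩
    obtain rfl : u = 1 - v := by linarith
    refine ⟨(1 - v) * t + v * t', by nlinarith [mul_nonneg hv (sub_nonneg.2 htt)],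
      by nlinarith [mul_nonneg hu (sub_nonneg.2 htt)], L_comb _ _ _ _ _ _ huv⟩
  · rintro ⟨r, h1, h2, rfl⟩
    have : r ∈ segment ℝ t t' := by rw [segment_eq_Icc htt]; exact ⟨h1, h2⟩
    obtain ⟨u, v, hu, hv, huv, e⟩ := this
    exact ⟨u, v, hu, hv, huv, by rw [L_comb _ _ _ _ _ _ huv, ← e]; simp⟩

lemma dist_L (a h t t' : ℝ) (htt : t ≤ t') : dist (L a h t) (L a h t') = t' - t := by
  rw [Complex.dist_eq_re_im]
  have : ((L a h t).re - (L a h t').re) ^ 2 + ((L a h t).im - (L a h t').im) ^ 2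
      = (t' - t) ^ 2 := by
    simp only [L]; linear_combination (t' - t) ^ 2 * sin_sq_add_cos_sq a
  rw [this, sqrt_sq (by linarith)]

lemma mu_seg (a h t t' : ℝ) (htt : t ≤ t') :
    μH[1] (segment ℝ (L a h t) (L a h t')) = ENNReal.ofReal (t' - t) := by
  rw [hausdorffMeasure_segment, edist_dist, dist_L _ _ _ _ htt]

lemma L_inj {a h t t' : ℝ} (e : L a h t = L a h t') : t = t' := by
  have h1 := cr_L a 1 0 0
  have h2 := congrArg Complex.re e
  have h3 := congrArg Complex.im e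
  simp only [L] at h2 h3
  linear_combination (-sin a) * h2 + cos a * h3 - (t - t') * sin_sq_add_cos_sq a

lemma line_inter {a b h g : ℝ} (hh : 0 < h) (hg : 0 < g) (hab : cos (a - b) ≠ 1) :
    ({x | dt a x = h} ∩ {x | dt b x = g}).Subsingleton := by
  rintro x ⟨h1, h2⟩ y ⟨h3, h4⟩
  simp only [mem_setOf_eq, dt] at h1 h2 h3 h4
  by_cases hs : sin (a - b) = 0
  · exfalso
    have hc : cos (a - b) = -1 := by
      have := sin_sq_add_cos_sq (a - b)
      rw [hs] at this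
      have h5 : (cos (a - b) - 1) * (cos (a - b) + 1) = 0 := by linarith
      rcases mul_eq_zero.1 h5 with h | h
      · exact absurd (by linarith) hab
      · linarith
    have e1 : cos a = -cos b := by
      have : a = (a - b) + b := by ring
      rw [this, cos_add, hs, hc]; ring
    have e2 : sin a = -sin b := by
      have : a = (a - b) + b := by ring
      rw [this, sin_add, hs, hc]; ring
    rw [e1, e2] at h1
    linarith
  · rw [sin_sub] at hs
    apply Complex.ext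
    · apply mul_left_cancel₀ hs
      linear_combination (-sin b) * (h1 - h3) + sin a * (h2 - h4)
    · apply mul_left_cancel₀ hs
      linear_combination (cos b) * (h1 - h3) - cos a * (h2 - h4)

end Pool.Agent.H.MP_ded0ac_co
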