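import Pool.Agent.H.MP_ded0ac_co.A

set_option autoImplicit false

namespace Pool.Agent.H.MP_ded0ac_co

open Set MeasureTheory Real

noncomputable def R (n : ℕ) : ℝ := 1 / (2 * sin (π / n))

noncomputable def vert (n : ℕ) (θ ε : ℝ) (i m : ℤ) : ℂ :=
  R n • E (θ + 2 * π * i / (n + 1) + 2 * π * m / n) + ε • R n • E (θ + 2 * π * i / (n + 1))

def poly (n : ℕ) (θ ε : ℝ) (i : ℤ) : Set ℂ := convexHull ℝ (range (vert n θ ε i))

def U (n : ℕ) (θ ε : ℝ) : Set ℂ := ⋃ i, poly n θ ε i

noncomputable def nu (n : ℕ) (θ : ℝ) (i m : ℤ) : ℝ :=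
  θ + 2 * π * i / (n + 1) + (2 * m + 1) * (π / n)

noncomputable def hh (n : ℕ) (ε : ℝ) (m : ℤ) : ℝ :=
  R n * cos (π / n) + ε * R n * cos ((2 * m + 1) * (π / n))

noncomputable def aa (n : ℕ) (ε : ℝ) (m : ℤ) : ℝ :=
  -(1 / 2) - ε * R n * sin ((2 * m + 1) * (π / n))

variable {n : ℕ} (hn : 3 ≤ n) (θ ε : ℝ)
include hn

lemma n3 : (3:ℝ) ≤ n := by exact_mod_cast hn

lemma al_pos : 0 < π / n := div_pos pi_pos (by linarith [n3 hn])

lemma al_le : π / n ≤ π / 3 := div_le_div_of_nonneg_left pi_pos.le (by norm_num) (n3 hn)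

lemma sin_al : 0 < sin (π / n) :=
  sin_pos_of_pos_of_lt_pi (al_pos hn) (by linarith [al_le hn, pi_pos])

lemma cos_al : 1 / 2 ≤ cos (π / n) := by
  rw [← cos_pi_div_three]
  exact cos_le_cos_of_nonneg_of_le_pi (al_pos hn).le (by linarith [pi_pos]) (al_le hn)

lemma R_pos : 0 < R n := by unfold R; have := sin_al hn; positivity

lemma R_sin : R n * sin (π / n) = 1 / 2 := by
  unfold R; have := (sin_al hn).ne'; field_simp

lemma vert_eq1 (i m : ℤ) : vert n θ ε i m = L (nu n θ i m) (hh n ε m) (aa n ε m) := by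
  have e1 : θ + 2 * π * i / (n + 1) + 2 * π * m / n = nu n θ i m - π / n := by
    unfold nu; ring
  have e2 : θ + 2 * π * i / (n + 1) = nu n θ i m - (2 * m + 1) * (π / n) := by
    unfold nu; ring
  have h := R_sin hn
  unfold vert
  rw [e1, e2]
  apply Complex.ext
  · simp only [L, E, hh, aa, Complex.add_re, Complex.smul_re, smul_eq_mul, cos_sub]
    linear_combination (sin (nu n θ i m)) * h
  · simp only [L, E, hh, aa, Complex.add_im, Complex.smul_im, smul_eq_mul, sin_sub]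
    linear_combination (-cos (nu n θ i m)) * h

lemma vert_eq2 (i m : ℤ) :
    vert n θ ε i (m + 1) = L (nu n θ i m) (hh n ε m) (aa n ε m + 1) := by
  have e1 : θ + 2 * π * i / (n + 1) + 2 * π * ((m + 1 : ℤ) : ℝ) / n = nu n θ i m + π / n := by
    unfold nu; push_cast; ring
  have e2 : θ + 2 * π * i / (n + 1) = nu n θ i m - (2 * m + 1) * (π / n) := by
    unfold nu; ring
  have h := R_sin hn
  unfold vert
  rw [e1, e2]
  apply Complex.ext
  · simp only [L, E, hh, aa, Complex.add_re, Complex.smul_re, smul_eq_mul, cos_sub, cos_add]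
    linear_combination (-sin (nu n θ i m)) * h
  · simp only [L, E, hh, aa, Complex.add_im, Complex.smul_im, smul_eq_mul, sin_sub, sin_add]
    linear_combination (cos (nu n θ i m)) * h

omit hn in
lemma cos_le_of {a x : ℝ} (h0 : 0 ≤ a) (h1 : a ≤ x) (h2 : x ≤ 2 * π - a) : cos x ≤ cos a := by
  rcases le_total x π with h | h
  · exact cos_le_cos_of_nonneg_of_le_pi h0 h h1
  · rw [← cos_two_pi_sub x]
    exact cos_le_cos_of_nonneg_of_le_pi h0 (by linarith) (by linarith)

lemma odd_per (m q : ℤ) : (2 * ((m + n * q : ℤ) : ℝ) + 1) * (π / n)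
    = (2 * m + 1) * (π / n) + q * (2 * π) := by
  have : (n:ℝ) ≠ 0 := by linarith [n3 hn]
  push_cast; field_simp; ring

lemma cos_odd (p : ℤ) : cos ((2 * p + 1) * (π / n)) ≤ cos (π / n) := by
  have hn0 : (0:ℤ) < n := by omega
  have e : p = p % n + n * (p / n) := (Int.emod_add_mul_ediv p n).symm
  rw [e, odd_per hn, cos_add_int_mul_two_pi]
  have h1 : (0:ℝ) ≤ (p % n : ℤ) := by exact_mod_cast Int.emod_nonneg p hn0.ne'
  have h2 : ((p % n : ℤ) : ℝ) + 1 ≤ n := by exact_mod_cast Int.emod_lt_of_pos p hn0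
  have ha := al_pos hn
  have h3 : n * (π / n) = π := by
    have : (n:ℝ) ≠ 0 := by linarith [n3 hn]
    field_simp
  apply cos_le_of ha.le <;> nlinarith

omit hn in
lemma dt_E (a b r : ℝ) : dt a (r • E b) = r * cos (b - a) := by
  simp only [dt, E, Complex.smul_re, Complex.smul_im, smul_eq_mul, cos_sub]; ring

omit hn in
lemma dt_add (a : ℝ) (x y : ℂ) : dt a (x + y) = dt a x + dt a y := by
  simp only [dt, Complex.add_re, Complex.add_im]; ring

omit hn in
lemma dt_smul (a r : ℝ) (x : ℂ) : dt a (r • x) = r * dt a x := by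
  simp only [dt, Complex.smul_re, Complex.smul_im, smul_eq_mul]; ring

omit hn in
lemma dt_le (a : ℝ) (x : ℂ) : dt a x ≤ ‖x‖ := by
  have h := Complex.sq_norm x
  rw [Complex.normSq_apply] at h
  apply le_of_sq_le_sq _ (norm_nonneg _) |> fun h => h
  rw [h]; unfold dt
  nlinarith [sq_nonneg (x.re * sin a - x.im * cos a), sin_sq_add_cos_sq a]

lemma half (i m : ℤ) {x : ℂ} (hx : x ∈ poly n θ ε i) : dt (nu n θ i m) x ≤ hh n ε m := by
  have hc : Convex ℝ {x : ℂ | dt (nu n θ i m) x ≤ hh n ε m} := by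
    intro x hx y hy u v hu hv huv
    simp only [mem_setOf_eq, dt_add, dt_smul] at *
    calc _ ≤ u * hh n ε m + v * hh n ε m := by gcongr
      _ = _ := by rw [← add_mul, huv, one_mul]
  refine convexHull_min ?_ hc hx
  rintro _ ⟨m', rfl⟩
  simp only [mem_setOf_eq, vert, dt_add, dt_smul ε]
  rw [dt_E, dt_smul, dt_E]
  have e1 : θ + 2 * π * i / (n + 1) + 2 * π * m' / n - nu n θ i m
      = (2 * ((m' - m - 1 : ℤ) : ℝ) + 1) * (π / n) := by
    unfold nu; push_cast; ring
  have e2 : θ + 2 * π * i / (n + 1) - nu n θ i m = -((2 * m + 1) * (π / n)) := by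
    unfold nu; ring
  rw [e1, e2, cos_neg]
  have := cos_odd hn (m' - m - 1)
  have h := R_pos hn
  unfold hh
  nlinarith

lemma nu_per (i m p q : ℤ) :
    nu n θ (i + (n + 1) * p) (m + n * q) = nu n θ i m + ((p + q : ℤ) : ℝ) * (2 * π) := by
  unfold nu
  rw [odd_per hn]
  have : (n:ℝ) + 1 ≠ 0 := by linarith [n3 hn]
  push_cast; field_simp; ring

lemma hh_per (m q : ℤ) : hh n ε (m + n * q) = hh n ε m := by
  unfold hh; rw [odd_per hn, cos_add_int_mul_two_pi]

lemma aa_per (m q : ℤ) : aa n ε (m + n * q) = aa n ε m := by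
  unfold aa; rw [odd_per hn, sin_add_int_mul_two_pi]

lemma vert_per (i m p q : ℤ) :
    vert n θ ε (i + (n + 1) * p) (m + n * q) = vert n θ ε i m := by
  rw [vert_eq1 hn, vert_eq1 hn, nu_per hn, hh_per hn, aa_per hn, L_per]

lemma poly_per (i p : ℤ) : poly n θ ε (i + (n + 1) * p) = poly n θ ε i := by
  unfold poly
  have : vert n θ ε (i + (n + 1) * p) = vert n θ ε i := by
    funext m
    have := vert_per hn θ ε i m p 0
    simpa using this
  rw [this]

lemma poly_compact (i : ℤ) : IsCompact (poly n θ ε i) := by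
  apply Set.Finite.isCompact_convexHull
  have hn0 : (0:ℤ) < n := by omega
  refine ((Set.finite_Ico (0:ℤ) n).image (vert n θ ε i)).subset ?_
  rintro _ ⟨m, rfl⟩
  refine ⟨m % n, ⟨Int.emod_nonneg m hn0.ne', Int.emod_lt_of_pos m hn0⟩, ?_⟩
  have := vert_per hn θ ε i (m % n) 0 (m / n)
  rw [Int.emod_add_mul_ediv] at this
  simpa using this.symm

lemma U_closed : IsClosed (U n θ ε) := by
  have hk : (0:ℤ) < n + 1 := by omega
  have : U n θ ε = ⋃ i ∈ Ico (0:ℤ) (n + 1), poly n θ ε i := by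
    apply Subset.antisymm
    · intro x hx
      obtain ⟨i, hi⟩ := mem_iUnion.1 hx
      refine mem_iUnion₂.2 ⟨i % (n + 1), ⟨Int.emod_nonneg i hk.ne', Int.emod_lt_of_pos i hk⟩, ?_⟩
      rw [← poly_per hn θ ε _ (i / (n + 1)), Int.emod_add_mul_ediv]; exact hi
    · exact iUnion₂_subset fun i _ => subset_iUnion (poly n θ ε) i
  rw [this]
  exact (Set.finite_Ico _ _).isClosed_biUnion fun i _ => (poly_compact hn θ ε i).isClosed

omit hn in
lemma norm_E (a : ℝ) : ‖E a‖ = 1 := by rw [← E_eq]; exact Complex.norm_exp_ofReal_mul_I a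

lemma U_bdd : ∀ y ∈ U n θ ε, ‖y‖ ≤ R n + |ε| * R n := by
  intro y hy
  obtain ⟨i, hi⟩ := mem_iUnion.1 hy
  have : poly n θ ε i ⊆ Metric.closedBall 0 (R n + |ε| * R n) := by
    refine convexHull_min ?_ (convex_closedBall _ _)
    rintro _ ⟨m, rfl⟩
    rw [mem_closedBall_zero_iff]
    refine (norm_add_le _ _).trans (le_of_eq ?_)
    simp only [norm_smul, norm_E, Real.norm_eq_abs, abs_of_pos (R_pos hn), mul_one]
  exact mem_closedBall_zero_iff.1 (this hi)

omit hn in
lemma cr_smul (r s : ℝ) (x y : ℂ) : cr (r • x) (s • y) = r * s * cr x y := by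
  simp only [cr, Complex.smul_re, Complex.smul_im, smul_eq_mul]; ring

omit hn in
lemma cr_smul_left (r : ℝ) (x y : ℂ) : cr (r • x) y = r * cr x y := by
  simp only [cr, Complex.smul_re, Complex.smul_im, smul_eq_mul]; ring

omit hn in
lemma cr_E (a b : ℝ) : cr (E a) (E b) = sin (b - a) := by
  simp only [cr, E, sin_sub]; ring

lemma cone_reg (φ : ℝ) (y : ℂ) : ∃ (m : ℤ) (s t : ℝ), 0 ≤ s ∧ 0 ≤ t ∧
    y = s • R n • E (φ + 2 * π * m / n) + t • R n • E (φ + 2 * π * ((m + 1 : ℤ) : ℝ) / n) := by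
  have ha := al_pos hn
  have hb := al_le hn
  have hR := R_pos hn
  obtain ⟨m, h1, h2⟩ := sector φ (2 * (π / n)) (by linarith) (by linarith [pi_pos]) y
  have e1 : φ + m * (2 * (π / n)) = φ + 2 * π * m / n := by ring
  have e2 : φ + ((m + 1 : ℤ) : ℝ) * (2 * (π / n)) = φ + 2 * π * ((m + 1 : ℤ) : ℝ) / n := by ring
  rw [e1] at h1; rw [e2] at h2
  refine ⟨m, cone2 ?_ ?_ ?_⟩
  · rw [cr_smul, cr_E]
    have : φ + 2 * π * ((m + 1 : ℤ) : ℝ) / n - (φ + 2 * π * m / n) = 2 * (π / n) := by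
      push_cast; ring
    rw [this]
    have := sin_pos_of_pos_of_lt_pi (x := 2 * (π / n)) (by linarith) (by linarith [pi_pos])
    positivity
  · rw [cr_smul_left]; positivity
  · rw [cr_smul_left]; exact mul_nonpos_of_nonneg_of_nonpos hR.le h2

lemma ball_sub (i : ℤ) : Metric.closedBall (ε • R n • E (θ + 2 * π * i / (n + 1)))
    (R n * cos (π / n)) ⊆ poly n θ ε i := by
  set c := ε • R n • E (θ + 2 * π * i / (n + 1)) with hc
  have hv : ∀ m : ℤ, R n • E (θ + 2 * π * i / (n + 1) + 2 * π * m / n) + c ∈ poly n θ ε i :=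
    fun m => subset_convexHull ℝ _ ⟨m, rfl⟩
  have hcv : Convex ℝ (poly n θ ε i) := convex_convexHull ℝ _
  have comb : ∀ x y z : ℂ, x ∈ poly n θ ε i → y ∈ poly n θ ε i → z ∈ poly n θ ε i →
      ∀ r s t : ℝ, 0 ≤ r → 0 ≤ s → 0 ≤ t → r + s + t = 1 →
      r • x + s • y + t • z ∈ poly n θ ε i := by
    intro x y z hx hy hz r s t hr hs ht h
    have := hcv.sum_mem (t := Finset.univ) (w := ![r, s, t]) (z := ![x, y, z])
      (by intro j _; fin_cases j <;> simpa) (by simpa [Fin.sum_univ_three] using h)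
      (by intro j _; fin_cases j <;> simpa)
    simpa [Fin.sum_univ_three] using this
  have hc0 : c ∈ poly n θ ε i := by
    obtain ⟨m, s, t, hs, ht, e⟩ := cone_reg hn (θ + 2 * π * i / (n + 1))
      (-(R n • E (θ + 2 * π * i / (n + 1) + 2 * π * ((0:ℤ):ℝ) / n)))
    have hp : 0 < 1 + s + t := by linarith
    have := comb _ _ _ (hv 0) (hv m) (hv (m + 1)) (1 / (1 + s + t)) (s / (1 + s + t))
      (t / (1 + s + t)) (by positivity) (by positivity) (by positivity) (by field_simp)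
    generalize R n • E (θ + 2 * π * i / (n + 1) + 2 * π * ((0:ℤ):ℝ) / n) = A at *
    generalize R n • E (θ + 2 * π * i / (n + 1) + 2 * π * m / n) = B at *
    generalize R n • E (θ + 2 * π * i / (n + 1) + 2 * π * ((m + 1 : ℤ) : ℝ) / n) = C at *
    have e' : A = -(s • B + t • C) := by rw [← e, neg_neg]
    have e2 : (1 / (1 + s + t)) • (A + c) + (s / (1 + s + t)) • (B + c)
        + (t / (1 + s + t)) • (C + c) = c := by
      rw [e']
      match_scalars <;> field_simp <;> ring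
    rwa [e2] at this
  intro x hx
  rw [Metric.mem_closedBall, dist_eq_norm] at hx
  obtain ⟨m, s, t, hs, ht, e⟩ := cone_reg hn (θ + 2 * π * i / (n + 1)) (x - c)
  have h1 := dt_le (nu n θ i m) (x - c)
  have e1 : θ + 2 * π * i / (n + 1) + 2 * π * m / n - nu n θ i m = -(π / n) := by
    unfold nu; ring
  have e2 : θ + 2 * π * i / (n + 1) + 2 * π * ((m + 1 : ℤ) : ℝ) / n - nu n θ i m = π / n := by
    unfold nu; push_cast; ring
  have h2 : dt (nu n θ i m) (x - c) = (s + t) * (R n * cos (π / n)) := by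
    rw [e, dt_add, dt_smul, dt_smul _ t, dt_E, dt_E, e1, e2, cos_neg]; ring
  have hρ : 0 < R n * cos (π / n) := mul_pos (R_pos hn) (by linarith [cos_al hn])
  have hst : s + t ≤ 1 := by nlinarith
  have := comb _ _ _ hc0 (hv m) (hv (m + 1)) (1 - s - t) s t (by linarith) hs ht (by ring)
  have e3 : x = (x - c) + c := by ring
  rw [e3, e]
  generalize R n • E (θ + 2 * π * i / (n + 1) + 2 * π * m / n) = B at *
  generalize R n • E (θ + 2 * π * i / (n + 1) + 2 * π * ((m + 1 : ℤ) : ℝ) / n) = C at *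
  have e4 : s • B + t • C + c = (1 - s - t) • c + s • (B + c) + t • (C + c) := by
    match_scalars <;> ring
  rwa [e4]

lemma vol_pos : 0 < volume (U n θ ε) := by
  have hρ : 0 < R n * cos (π / n) := mul_pos (R_pos hn) (by linarith [cos_al hn])
  exact lt_of_lt_of_le (Metric.measure_closedBall_pos volume _ hρ)
    (measure_mono ((ball_sub hn θ ε 0).trans (subset_iUnion (poly n θ ε) 0)))

end Pool.Agent.H.MP_ded0ac_co
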