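import Pool.Agent.H.MP_ded0ac_co.B

set_option autoImplicit false

namespace Pool.Agent.H.MP_ded0ac_co

open Set MeasureTheory Real

noncomputable def T (n : ℕ) : ℝ := tan (π / (n + 1))

def S1 (n : ℕ) (θ ε : ℝ) (j : ℤ) : Set ℂ :=
  segment ℝ (L (nu n θ (-j) j) (hh n ε j) (aa n ε j))
    (L (nu n θ (-j) j) (hh n ε j) (-(hh n ε j * T n)))

def S2 (n : ℕ) (θ ε : ℝ) (j : ℤ) : Set ℂ :=
  segment ℝ (L (nu n θ (-j) j) (hh n ε j) (hh n ε j * T n))
    (L (nu n θ (-j) j) (hh n ε j) (aa n ε j + 1))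

def Ok (n : ℕ) (ε : ℝ) : Prop :=
  ∀ j : ℤ, aa n ε j ≤ -(hh n ε j * T n) ∧ hh n ε j * T n ≤ aa n ε j + 1

variable {n : ℕ} (hn : 3 ≤ n) (θ ε : ℝ)
include hn

lemma be_pos : 0 < π / (n + 1) := div_pos pi_pos (by linarith [n3 hn])

lemma be_lt : π / (n + 1) < π / n :=
  div_lt_div_of_pos_left pi_pos (by linarith [n3 hn]) (by linarith)

lemma be_ge : 3 / 4 * (π / n) ≤ π / (n + 1) := by
  have h := n3 hn
  rw [mul_div_assoc', div_le_div_iff₀ (by linarith) (by linarith)]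
  nlinarith [pi_pos]

lemma cos_be : 1 / 2 ≤ cos (π / (n + 1)) :=
  (cos_al hn).trans (cos_le_cos_of_nonneg_of_le_pi (be_pos hn).le
    (by linarith [al_le hn, pi_pos]) (be_lt hn).le)

lemma sin_be : 0 < sin (π / (n + 1)) :=
  sin_pos_of_pos_of_lt_pi (be_pos hn) (by linarith [be_lt hn, al_le hn, pi_pos])

lemma T_cos : T n * cos (π / (n + 1)) = sin (π / (n + 1)) := by
  unfold T; rw [tan_eq_sin_div_cos]
  have : cos (π / (n + 1)) ≠ 0 := by linarith [cos_be hn]
  field_simp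

lemma T_pos : 0 < T n := by
  unfold T; rw [tan_eq_sin_div_cos]
  exact div_pos (sin_be hn) (by linarith [cos_be hn])

lemma T_ge : π / (n + 1) ≤ T n :=
  le_tan (be_pos hn).le (by linarith [be_lt hn, al_le hn, pi_pos])

lemma rhoT_ge : 3 / 16 ≤ R n * cos (π / n) * T n := by
  have h1 := R_sin hn
  have h2 := T_ge hn
  have h3 := be_ge hn
  have h4 := cos_al hn
  have h5 := sin_le (al_pos hn).le
  have h6 := R_pos hn
  have h7 := al_pos hn
  have h8 : 1 / 2 ≤ R n * (π / n) := by nlinarith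
  have h9 : 3 / 8 ≤ R n * T n := by nlinarith
  nlinarith

lemma rhoT_lt : R n * cos (π / n) * T n < 1 / 2 := by
  have h1 := R_sin hn
  have h2 := T_cos hn
  have h3 : 0 < sin (π / n - π / (n + 1)) :=
    sin_pos_of_pos_of_lt_pi (by linarith [be_lt hn]) (by linarith [be_pos hn, al_le hn, pi_pos])
  rw [sin_sub] at h3
  have h4 := cos_be hn
  have h6 := R_pos hn
  have h7 : cos (π / n) * T n < sin (π / n) := by
    by_contra h
    push Not at h
    have h8 := mul_le_mul_of_nonneg_right h (show 0 ≤ cos (π / (n + 1)) by linarith)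
    rw [mul_assoc, h2] at h8
    linarith
  nlinarith

lemma hh_pos (hε : 0 < ε) (hok : Ok n ε) (j : ℤ) : 0 < hh n ε j := by
  have h := (hok 0).2
  simp only [hh, aa, Int.cast_zero, mul_zero, zero_add, one_mul] at h
  have h1 := R_sin hn
  have h2 := rhoT_ge hn
  have h3 : ε < 1 / 2 := by
    have : ε * R n * sin (π / n) = ε / 2 := by rw [mul_assoc, h1]; ring
    nlinarith
  have h4 := cos_al hn
  have h5 := neg_one_le_cos ((2 * j + 1) * (π / n))
  have h6 := R_pos hn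
  unfold hh
  have : 0 < R n * (cos (π / n) + ε * cos ((2 * j + 1) * (π / n))) := by
    apply mul_pos h6; nlinarith
  linarith

omit hn in
lemma sum_cos (M : ℕ) : 2 * sin (π / n) *
    ∑ j ∈ Finset.range M, cos ((2 * ((j:ℤ):ℝ) + 1) * (π / n)) = sin (2 * M * (π / n)) := by
  induction M with
  | zero => simp
  | succ M ih =>
    rw [Finset.sum_range_succ, mul_add, ih]
    have e1 : 2 * (M:ℝ) * (π / n) = (2 * ((M:ℤ):ℝ) + 1) * (π / n) - π / n := by push_cast; ring
    have e2 : 2 * ((M + 1 : ℕ):ℝ) * (π / n) = (2 * ((M:ℤ):ℝ) + 1) * (π / n) + π / n := by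
      push_cast; ring
    rw [e1, e2, sin_sub, sin_add]; ring

lemma sum_cos0 :
    ∑ j ∈ Finset.range (n * (n + 1)), cos ((2 * ((j:ℤ):ℝ) + 1) * (π / n)) = 0 := by
  have h := sum_cos (n := n) (n * (n + 1))
  have e : 2 * ((n * (n + 1) : ℕ) : ℝ) * (π / n) = ((2 * (n + 1) : ℕ) : ℝ) * π := by
    have : (n:ℝ) ≠ 0 := by linarith [n3 hn]
    push_cast; field_simp
  rw [e, sin_nat_mul_pi] at h
  have := (sin_al hn).ne'
  simpa [this] using h

lemma key (hε : 0 < ε) : 4 * tan (π / n) *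
    ∑ j ∈ Finset.range (n * (n + 1)), hh n ε j * (1 - 2 * (hh n ε j * T n)) / 2
    < ∑ j ∈ Finset.range (n * (n + 1)), (1 - 2 * (hh n ε j * T n)) := by
  have hc : 0 < cos (π / n) := by linarith [cos_al hn]
  have hR := R_pos hn
  have hT := T_pos hn
  have ht : 0 < tan (π / n) := by rw [tan_eq_sin_div_cos]; exact div_pos (sin_al hn) hc
  have h1 : 2 * tan (π / n) * (R n * cos (π / n)) = 1 := by
    rw [tan_eq_sin_div_cos]; have := R_sin hn; field_simp; linarith
  rw [Finset.mul_sum, ← sub_pos, ← Finset.sum_sub_distrib]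
  have e : ∀ j ∈ Finset.range (n * (n + 1)), (1 - 2 * (hh n ε j * T n))
      - 4 * tan (π / n) * (hh n ε j * (1 - 2 * (hh n ε j * T n)) / 2)
      = -(2 * tan (π / n) * ε * R n * (1 - 2 * (R n * cos (π / n)) * T n))
          * cos ((2 * ((j:ℤ):ℝ) + 1) * (π / n))
        + 4 * tan (π / n) * (ε * R n) ^ 2 * T n * cos ((2 * ((j:ℤ):ℝ) + 1) * (π / n)) ^ 2 := by
    intro j _
    unfold hh
    linear_combination (-(1 - 2 * ((R n * cos (π / n)
      + ε * R n * cos ((2 * ((j:ℤ):ℝ) + 1) * (π / n))) * T n))) * h1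
  rw [Finset.sum_congr rfl e, Finset.sum_add_distrib, ← Finset.mul_sum, sum_cos0 hn, mul_zero,
    zero_add, ← Finset.mul_sum]
  apply mul_pos (by positivity)
  apply Finset.sum_pos' (fun j _ => sq_nonneg _)
  refine ⟨0, Finset.mem_range.2 (by positivity), ?_⟩
  simp only [Nat.cast_zero, Int.cast_zero, mul_zero, zero_add, one_mul]
  positivity

lemma cos_ne {j k : ℕ} (hj : j < n * (n + 1)) (hk : k < n * (n + 1)) (hjk : j ≠ k) :
    cos (nu n θ (-(j:ℤ)) j - nu n θ (-(k:ℤ)) k) ≠ 1 := by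
  have h3 := n3 hn
  have hN : (0:ℝ) < n * (n + 1) := by positivity
  have e : nu n θ (-(j:ℤ)) j - nu n θ (-(k:ℤ)) k = 2 * π * (((j:ℝ) - k) / (n * (n + 1))) := by
    unfold nu; push_cast; field_simp; ring
  have hj' : (j:ℝ) < n * (n + 1) := by exact_mod_cast hj
  have hk' : (k:ℝ) < n * (n + 1) := by exact_mod_cast hk
  have hj0 : (0:ℝ) ≤ j := Nat.cast_nonneg j
  have hk0 : (0:ℝ) ≤ k := Nat.cast_nonneg k
  have h1 : ((j:ℝ) - k) / (n * (n + 1)) < 1 := by rw [div_lt_one hN]; linarith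
  have h2 : -1 < ((j:ℝ) - k) / (n * (n + 1)) := by rw [lt_div_iff₀ hN]; linarith
  rw [e]
  intro h
  rw [cos_eq_one_iff_of_lt_of_lt (by nlinarith [pi_pos]) (by nlinarith [pi_pos])] at h
  have h4 : ((j:ℝ) - k) / (n * (n + 1)) = 0 := by
    rcases mul_eq_zero.1 h with h | h
    · linarith [pi_pos]
    · exact h
  rw [div_eq_zero_iff] at h4
  rcases h4 with h4 | h4
  · exact hjk (by exact_mod_cast (sub_eq_zero.1 h4))
  · exact hN.ne' h4

omit hn in
lemma seg_meas (A B : ℂ) : MeasurableSet (segment ℝ A B) := by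
  rw [← convexHull_pair]
  exact ((Set.toFinite _).isCompact_convexHull ℝ).isClosed.measurableSet

lemma perim (hε : 0 < ε) (hok : Ok n ε) :
    μH[1] (⋃ j ∈ Finset.range (n * (n + 1)), (S1 n θ ε j ∪ S2 n θ ε j))
      = ENNReal.ofReal (∑ j ∈ Finset.range (n * (n + 1)), (1 - 2 * (hh n ε j * T n))) := by
  have : NullSingletonClass (μH[1] : Measure ℂ) := Measure.nullSingletonClass_hausdorff ℂ one_pos
  have hline : ∀ j : ℤ, S1 n θ ε j ∪ S2 n θ ε j ⊆ {x | dt (nu n θ (-j) j) x = hh n ε j} := by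
    rintro j x (hx | hx)
    · obtain ⟨r, -, -, rfl⟩ := (mem_seg_L (hok j).1).1 hx
      exact dt_L _ _ _
    · obtain ⟨r, -, -, rfl⟩ := (mem_seg_L (hok j).2).1 hx
      exact dt_L _ _ _
  rw [measure_biUnion_finset₀, ENNReal.ofReal_sum_of_nonneg]
  · refine Finset.sum_congr rfl fun j _ => ?_
    have hp : 0 < hh n ε j * T n := mul_pos (hh_pos hn ε hε hok j) (T_pos hn)
    unfold S1 S2
    rw [measure_union _ (seg_meas _ _)]
    · rw [mu_seg _ _ _ _ (hok j).1, mu_seg _ _ _ _ (hok j).2,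
        ← ENNReal.ofReal_add (by linarith [(hok j).1]) (by linarith [(hok j).2])]
      congr 1; ring
    · rw [Set.disjoint_left]
      intro x h1 h2
      obtain ⟨r, -, hr, rfl⟩ := (mem_seg_L (hok j).1).1 h1
      obtain ⟨r', hr', -, e⟩ := (mem_seg_L (hok j).2).1 h2
      have := L_inj e
      linarith
  · intro j _
    linarith [(hok j).1, (hok j).2]
  · intro j hj k hk hjk
    have := line_inter (hh_pos hn ε hε hok j) (hh_pos hn ε hε hok k)
      (cos_ne hn θ (Finset.mem_range.1 hj) (Finset.mem_range.1 hk) hjk)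
    exact (this.anti (inter_subset_inter (hline j) (hline k))).measure_zero _
  · intro j _
    exact ((seg_meas _ _).union (seg_meas _ _)).nullMeasurableSet

lemma area (hε : 0 < ε) (hok : Ok n ε)
    (hf : frontier (U n θ ε) ⊆ ⋃ j ∈ Finset.range (n * (n + 1)), (S1 n θ ε j ∪ S2 n θ ε j)) :
    volume (U n θ ε) ≤ ENNReal.ofReal
      (∑ j ∈ Finset.range (n * (n + 1)), hh n ε j * (1 - 2 * (hh n ε j * T n)) / 2) := by
  have hsub : U n θ ε ⊆ ⋃ j ∈ Finset.range (n * (n + 1)),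
      (tri (L (nu n θ (-(j:ℤ)) j) (hh n ε j) (aa n ε j))
        (L (nu n θ (-(j:ℤ)) j) (hh n ε j) (-(hh n ε j * T n))) ∪
      tri (L (nu n θ (-(j:ℤ)) j) (hh n ε j) (hh n ε j * T n))
        (L (nu n θ (-(j:ℤ)) j) (hh n ε j) (aa n ε j + 1))) := by
    intro x hx
    by_cases h0 : x = 0
    · refine mem_iUnion₂.2 ⟨0, Finset.mem_range.2 (by positivity), Or.inl ?_⟩
      exact ⟨0, 0, le_rfl, le_rfl, by norm_num, by simp [h0]⟩
    · obtain ⟨l, hl, hfr⟩ := ray_frontier (U_bdd hn θ ε) hx h0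
      obtain ⟨j, hj, h⟩ := mem_iUnion₂.1 (hf hfr)
      refine mem_iUnion₂.2 ⟨j, hj, ?_⟩
      rcases h with h | h
      · exact Or.inl (seg_tri hl h)
      · exact Or.inr (seg_tri hl h)
  refine (measure_mono hsub).trans ((measure_biUnion_finset_le _ _).trans ?_)
  rw [ENNReal.ofReal_sum_of_nonneg]
  · refine Finset.sum_le_sum fun j _ => (measure_union_le _ _).trans (le_of_eq ?_)
    have hp := hh_pos hn ε hε hok j
    have h1 := (hok j).1
    have h2 := (hok j).2
    rw [vol_tri, vol_tri, cr_L, cr_L, abs_of_nonneg (mul_nonneg hp.le (by linarith)),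
      abs_of_nonneg (mul_nonneg hp.le (by linarith)),
      ← ENNReal.ofReal_add (div_nonneg (mul_nonneg hp.le (by linarith)) (by norm_num))
        (div_nonneg (mul_nonneg hp.le (by linarith)) (by norm_num))]
    congr 1; ring
  · intro j _
    have hp := hh_pos hn ε hε hok j
    exact div_nonneg (mul_nonneg hp.le (by linarith [(hok j).1, (hok j).2])) (by norm_num)

lemma ratio (hε : 0 < ε) (hok : Ok n ε)
    (hf : frontier (U n θ ε) = ⋃ j ∈ Finset.range (n * (n + 1)), (S1 n θ ε j ∪ S2 n θ ε j)) :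
    4 * tan (π / n) < (μH[1] (frontier (U n θ ε))).toReal / (volume (U n θ ε)).toReal := by
  have ha := area hn θ ε hε hok hf.subset
  have hfin : volume (U n θ ε) ≠ ⊤ := ne_top_of_le_ne_top ENNReal.ofReal_ne_top ha
  have hpos : 0 < (volume (U n θ ε)).toReal := ENNReal.toReal_pos (vol_pos hn θ ε).ne' hfin
  have hnn : 0 ≤ ∑ j ∈ Finset.range (n * (n + 1)), (1 - 2 * (hh n ε j * T n)) :=
    Finset.sum_nonneg fun j _ => by linarith [(hok j).1, (hok j).2]
  have hnn2 : 0 ≤ ∑ j ∈ Finset.range (n * (n + 1)), hh n ε j * (1 - 2 * (hh n ε j * T n)) / 2 :=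
    Finset.sum_nonneg fun j _ => div_nonneg (mul_nonneg (hh_pos hn ε hε hok j).le
      (by linarith [(hok j).1, (hok j).2])) (by norm_num)
  have ha' := ENNReal.toReal_le_of_le_ofReal hnn2 ha
  rw [hf, perim hn θ ε hε hok, ENNReal.toReal_ofReal hnn, lt_div_iff₀ hpos]
  have ht : 0 < tan (π / n) := by
    rw [tan_eq_sin_div_cos]; exact div_pos (sin_al hn) (by linarith [cos_al hn])
  exact lt_of_le_of_lt (mul_le_mul_of_nonneg_left ha' (by positivity)) (key hn ε hε)

end Pool.Agent.H.MP_ded0ac_co
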