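import Pool.Agent.H.MP_ded0ac_co.C

set_option autoImplicit false

namespace Pool.Agent.H.MP_ded0ac_co

open Set MeasureTheory Real

def Pat (n : ℕ) (θ ε : ℝ) : Prop :=
  ∃ W : ℤ → ℂ, (∀ j, W j ∈ segment ℝ (vert n θ ε (-j) j) (vert n θ ε (-j) (j + 1)) ∧
      W j ∈ segment ℝ (vert n θ ε (-j - 1) j) (vert n θ ε (-j - 1) (j + 1))) ∧
    frontier (U n θ ε) = ⋃ j, (segment ℝ (vert n θ ε (-j) j) (W j) ∪
      segment ℝ (W j) (vert n θ ε (-j - 1) (j + 1)))

noncomputable def WW (n : ℕ) (θ ε : ℝ) (j : ℤ) : ℂ :=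
  L (nu n θ (-j) j) (hh n ε j) (-(hh n ε j * T n))

lemma dt_L' (a b h t : ℝ) : dt a (L b h t) = h * cos (a - b) + t * sin (a - b) := by
  simp only [dt, L, cos_sub, sin_sub]; ring

lemma nu_sub (n : ℕ) (θ : ℝ) (j : ℤ) :
    nu n θ (-j - 1) j = nu n θ (-j) j - 2 * (π / (n + 1)) := by
  unfold nu; push_cast; ring

variable {n : ℕ} (hn : 3 ≤ n) (θ ε : ℝ)
include hn

lemma L_W (a h : ℝ) : L a h (-(h * T n)) = (h / cos (π / (n + 1))) • E (a - π / (n + 1)) := by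
  have h1 := T_cos hn
  have h2 : cos (π / (n + 1)) ≠ 0 := by linarith [cos_be hn]
  apply Complex.ext
  · simp only [L, E, Complex.smul_re, smul_eq_mul, cos_sub]
    rw [← h1]; field_simp; ring
  · simp only [L, E, Complex.smul_im, smul_eq_mul, sin_sub]
    rw [← h1]; field_simp; ring

lemma L_W' (a h : ℝ) : L a h (h * T n) = (h / cos (π / (n + 1))) • E (a + π / (n + 1)) := by
  have h1 := T_cos hn
  have h2 : cos (π / (n + 1)) ≠ 0 := by linarith [cos_be hn]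
  apply Complex.ext
  · simp only [L, E, Complex.smul_re, smul_eq_mul, cos_add]
    rw [← h1]; field_simp
  · simp only [L, E, Complex.smul_im, smul_eq_mul, sin_add]
    rw [← h1]; field_simp

lemma WW_eq (j : ℤ) : WW n θ ε j = L (nu n θ (-j - 1) j) (hh n ε j) (hh n ε j * T n) := by
  rw [WW, L_W hn, L_W' hn, nu_sub]
  congr 2; ring

lemma W_uniq {a h t t' : ℝ} (e : L a h t = L (a - 2 * (π / (n + 1))) h t') :
    t = -(h * T n) ∧ t' = h * T n := by
  have h1 := congrArg (dt a) e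
  have h2 := congrArg (dt (a - 2 * (π / (n + 1)))) e
  rw [dt_L, dt_L', sub_sub_cancel, cos_two_mul, sin_two_mul] at h1
  rw [dt_L, dt_L', sub_sub_cancel_left, cos_neg, sin_neg, cos_two_mul, sin_two_mul] at h2
  have h3 := T_cos hn
  have h4 : 2 * sin (π / (n + 1)) * cos (π / (n + 1)) ≠ 0 := by
    have := sin_be hn
    have := cos_be hn
    positivity
  have h5 := sin_sq_add_cos_sq (π / (n + 1))
  constructor
  · apply mul_left_cancel₀ h4
    linear_combination -h2 + 2 * h * h5 + 2 * h * sin (π / (n + 1)) * h3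
  · apply mul_left_cancel₀ h4
    linear_combination -h1 - 2 * h * h5 - 2 * h * sin (π / (n + 1)) * h3

lemma nu_shift (j : ℤ) : nu n θ (-(j - n)) (j - n) = nu n θ (-j - 1) j := by
  have := nu_per hn θ (-j - 1) j 1 (-1)
  rw [show -j - 1 + (n + 1) * 1 = -(j - n) by ring, show j + n * (-1) = j - n by ring] at this
  simpa using this

lemma hh_shift (j : ℤ) : hh n ε (j - n) = hh n ε j := by
  rw [← hh_per hn ε j (-1)]; congr 1; ring

lemma aa_shift (j : ℤ) : aa n ε (j - n) = aa n ε j := by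
  rw [← aa_per hn ε j (-1)]; congr 1; ring

lemma seg1 (j : ℤ) : segment ℝ (vert n θ ε (-j) j) (WW n θ ε j) = S1 n θ ε j := by
  rw [vert_eq1 hn]; rfl

lemma seg2 (j : ℤ) :
    segment ℝ (WW n θ ε j) (vert n θ ε (-j - 1) (j + 1)) = S2 n θ ε (j - n) := by
  rw [vert_eq2 hn, WW_eq hn, S2, nu_shift hn, hh_shift hn, aa_shift hn]

lemma S_per (j q : ℤ) : S1 n θ ε (j + n * (n + 1) * q) = S1 n θ ε j ∧
    S2 n θ ε (j + n * (n + 1) * q) = S2 n θ ε j := by
  have e1 : -(j + n * (n + 1) * q) = -j + (n + 1) * (-(n * q)) := by ring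
  have e2 : j + n * (n + 1) * q = j + n * ((n + 1) * q) := by ring
  unfold S1 S2
  rw [e1, e2, nu_per hn, hh_per hn, aa_per hn]
  simp only [L_per, and_self]

lemma chain_eq : (⋃ j, (segment ℝ (vert n θ ε (-j) j) (WW n θ ε j) ∪
      segment ℝ (WW n θ ε j) (vert n θ ε (-j - 1) (j + 1))))
    = ⋃ j ∈ Finset.range (n * (n + 1)), (S1 n θ ε j ∪ S2 n θ ε j) := by
  simp only [seg1 hn, seg2 hn]
  have hN : (0:ℤ) < n * (n + 1) := by positivity
  have red : ∀ j : ℤ, ∃ r ∈ Finset.range (n * (n + 1)),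
      S1 n θ ε j = S1 n θ ε r ∧ S2 n θ ε j = S2 n θ ε r := by
    intro j
    have h0 := Int.emod_nonneg j hN.ne'
    have h1 := Int.emod_lt_of_pos j hN
    refine ⟨(j % (n * (n + 1))).toNat, Finset.mem_range.2 ?_, ?_⟩
    · zify; rw [Int.toNat_of_nonneg h0]; exact h1
    · rw [Int.toNat_of_nonneg h0]
      have := S_per hn θ ε (j % (n * (n + 1))) (j / (n * (n + 1)))
      rwa [Int.emod_add_mul_ediv] at this
  apply Subset.antisymm
  · intro x hx
    obtain ⟨j, h | h⟩ := mem_iUnion.1 hx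
    · obtain ⟨r, hr, e, -⟩ := red j
      exact mem_iUnion₂.2 ⟨r, hr, Or.inl (e ▸ h)⟩
    · obtain ⟨r, hr, -, e⟩ := red (j - n)
      exact mem_iUnion₂.2 ⟨r, hr, Or.inr (e ▸ h)⟩
  · intro x hx
    obtain ⟨j, -, h | h⟩ := mem_iUnion₂.1 hx
    · exact mem_iUnion.2 ⟨j, Or.inl h⟩
    · exact mem_iUnion.2 ⟨j + n, Or.inr (by simpa using h)⟩

theorem partA (hε : 0 < ε) (hp : Pat n θ ε) :
    4 * tan (π / n) < (μH[1] (frontier (U n θ ε))).toReal / (volume (U n θ ε)).toReal := by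
  obtain ⟨W, hW, hf⟩ := hp
  have key : ∀ j, W j = WW n θ ε j ∧
      (aa n ε j ≤ -(hh n ε j * T n) ∧ hh n ε j * T n ≤ aa n ε j + 1) := by
    intro j
    obtain ⟨h1, h2⟩ := hW j
    rw [vert_eq1 hn, vert_eq2 hn, mem_seg_L (by linarith)] at h1 h2
    obtain ⟨r, hr, -, e⟩ := h1
    obtain ⟨r', -, hr', e'⟩ := h2
    rw [e, nu_sub] at e'
    obtain ⟨rfl, rfl⟩ := W_uniq hn e'
    exact ⟨e, hr, hr'⟩
  obtain rfl : W = WW n θ ε := funext fun j => (key j).1
  rw [chain_eq hn] at hf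
  exact ratio hn θ ε hε (fun j => (key j).2) hf

end Pool.Agent.H.MP_ded0ac_co
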