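import Pool.Agent.H.MP_ded0ac_co.D

set_option autoImplicit false

namespace Pool.Agent.H.MP_ded0ac_co

open Set MeasureTheory Real Filter Topology

noncomputable def ga (n : ℕ) : ℝ := π / n - π / (n + 1)

structure Small (n : ℕ) (ε : ℝ) : Prop where
  pos : 0 < ε
  c1 : 2 * ε * R n < R n * (cos (π / n - 2 * ga n) - cos (π / n))
  c2 : (R n * cos (π / n) + ε * R n) * cos (π / (n + 1))
    < (R n * cos (π / n) - ε * R n) * cos (π / (n + 1) - 2 * ga n)
  c3 : ε * R n < R n * cos (π / n)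
  c4 : ε * R n + (R n * cos (π / n) + ε * R n) * T n < 1 / 2

lemma nu_ga (n : ℕ) (θ : ℝ) (j : ℤ) : nu n θ (-j) j = θ + π / n + 2 * ga n * j := by
  unfold nu ga; push_cast; ring

lemma cos_ge_of {a x : ℝ} (h0 : a ≤ π) (h1 : -a ≤ x) (h2 : x ≤ a) : cos a ≤ cos x := by
  rw [← cos_abs x]
  exact cos_le_cos_of_nonneg_of_le_pi (abs_nonneg _) h0 (abs_le.2 ⟨h1, h2⟩)

variable {n : ℕ} (hn : 3 ≤ n) (θ : ℝ) {ε : ℝ}
include hn

lemma ga_pos : 0 < ga n := by unfold ga; linarith [be_lt hn]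

lemma ga_n : ga n * n = π / (n + 1) := by
  have := n3 hn
  unfold ga; field_simp; ring

lemma small_ex : ∃ ε0 > 0, ∀ ε ∈ Ioo (0:ℝ) ε0, Small n ε := by
  have hg := ga_pos hn
  have hgn := ga_n hn
  have h3 := n3 hn
  have hR := R_pos hn
  have hb := be_lt hn
  have ha := al_le hn
  have hc := cos_al hn
  have h2g : 2 * ga n ≤ π / (n + 1) := by nlinarith
  have k1 : cos (π / n) < cos (π / n - 2 * ga n) :=
    cos_lt_cos_of_nonneg_of_le_pi (by linarith) (by linarith [pi_pos]) (by linarith)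
  have k2 : cos (π / (n + 1)) < cos (π / (n + 1) - 2 * ga n) :=
    cos_lt_cos_of_nonneg_of_le_pi (by linarith) (by linarith [pi_pos]) (by linarith)
  have hρ : 0 < R n * cos (π / n) := mul_pos hR (by linarith)
  have e1 : ∀ᶠ ε in 𝓝 (0:ℝ), 2 * ε * R n < R n * (cos (π / n - 2 * ga n) - cos (π / n)) := by
    apply ContinuousAt.eventually_lt (by fun_prop) (by fun_prop)
    simp only [mul_zero, zero_mul]
    exact mul_pos hR (by linarith)
  have e2 : ∀ᶠ ε in 𝓝 (0:ℝ), (R n * cos (π / n) + ε * R n) * cos (π / (n + 1))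
      < (R n * cos (π / n) - ε * R n) * cos (π / (n + 1) - 2 * ga n) := by
    apply ContinuousAt.eventually_lt (by fun_prop) (by fun_prop)
    simp only [zero_mul, add_zero, sub_zero]
    exact mul_lt_mul_of_pos_left k2 hρ
  have e3 : ∀ᶠ ε in 𝓝 (0:ℝ), ε * R n < R n * cos (π / n) := by
    apply ContinuousAt.eventually_lt (by fun_prop) (by fun_prop)
    simpa using hρ
  have e4 : ∀ᶠ ε in 𝓝 (0:ℝ), ε * R n + (R n * cos (π / n) + ε * R n) * T n < 1 / 2 := by
    apply ContinuousAt.eventually_lt (by fun_prop) (by fun_prop)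
    simp only [zero_mul, add_zero, zero_add]
    exact rhoT_lt hn
  obtain ⟨δ, hδ, h⟩ := Metric.eventually_nhds_iff.1 (e1.and (e2.and (e3.and e4)))
  refine ⟨δ, hδ, fun ε hε => ?_⟩
  have := h (y := ε) (by rw [Real.dist_eq, sub_zero, abs_of_pos hε.1]; exact hε.2)
  exact ⟨hε.1, this.1, this.2.1, this.2.2.1, this.2.2.2⟩

variable (hs : Small n ε)
include hs

lemma hh_bd (j : ℤ) : R n * cos (π / n) - ε * R n ≤ hh n ε j ∧
    hh n ε j ≤ R n * cos (π / n) + ε * R n := by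
  have h1 := neg_one_le_cos ((2 * j + 1) * (π / n))
  have h2 := cos_le_one ((2 * j + 1) * (π / n))
  have h3 := mul_pos hs.pos (R_pos hn)
  unfold hh
  constructor <;> nlinarith

lemma hh_pos' (j : ℤ) : 0 < hh n ε j := by linarith [(hh_bd hn hs j).1, hs.c3]

lemma ok_strict (j : ℤ) : aa n ε j < -(hh n ε j * T n) ∧ hh n ε j * T n < aa n ε j + 1 := by
  have h1 := neg_one_le_sin ((2 * j + 1) * (π / n))
  have h2 := sin_le_one ((2 * j + 1) * (π / n))
  have h3 := mul_pos hs.pos (R_pos hn)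
  have h4 := mul_le_mul_of_nonneg_right (hh_bd hn hs j).2 (T_pos hn).le
  have h5 := hs.c4
  unfold aa
  constructor <;> nlinarith

lemma G1 (j b : ℤ) (hb0 : 0 ≤ b) (hb1 : b ≤ n + 1) :
    hh n ε (j - b) ≤ dt (nu n θ (-(j - b)) (j - b)) (vert n θ ε (-j) j) := by
  rcases hb0.eq_or_lt with rfl | hb0
  · rw [sub_zero, vert_eq1 hn, dt_L]
  rcases hb1.eq_or_lt with rfl | hb1
  · have := vert_per hn θ ε (-(j - (n + 1))) (j - (n + 1) + 1) (-1) 1
    rw [show -(j - (n + 1)) + (n + 1) * (-1) = -j by ring,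
      show j - (n + 1) + 1 + n * 1 = j by ring] at this
    rw [this, vert_eq2 hn, dt_L]
  have hg := ga_pos hn
  have hgn := ga_n hn
  have hb0' : (1:ℝ) ≤ b := by exact_mod_cast hb0
  have hb1' : (b:ℝ) ≤ n := by exact_mod_cast (show b ≤ n by omega)
  have e : θ + 2 * π * ((-j : ℤ) : ℝ) / (n + 1) + 2 * π * j / n - nu n θ (-(j - b)) (j - b)
      = 2 * ga n * b - π / n := by
    unfold nu ga; push_cast; ring
  unfold vert
  rw [dt_add, dt_E, dt_smul, dt_E, e]
  have hga : ga n = π / n - π / (n + 1) := rfl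
  have k : cos (π / n - 2 * ga n) ≤ cos (2 * ga n * b - π / n) :=
    cos_ge_of (by linarith [al_le hn, pi_pos]) (by nlinarith) (by nlinarith)
  have h1 := neg_one_le_cos (θ + 2 * π * ((-j : ℤ) : ℝ) / (n + 1) - nu n θ (-(j - b)) (j - b))
  have h2 := (hh_bd hn hs (j - b)).2
  have h3 := mul_pos hs.pos (R_pos hn)
  have h4 := hs.c1
  have h5 := mul_le_mul_of_nonneg_left k (R_pos hn).le
  nlinarith

lemma G3 (j a : ℤ) (ha0 : 0 ≤ a) (ha1 : a ≤ n) :
    hh n ε (j - a) ≤ dt (nu n θ (-(j - a)) (j - a)) (WW n θ ε j) := by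
  rcases ha0.eq_or_lt with rfl | ha0
  · rw [sub_zero, WW, dt_L]
  rcases ha1.eq_or_lt with rfl | ha1
  · rw [WW_eq hn, nu_shift hn, hh_shift hn, dt_L]
  have hg := ga_pos hn
  have hgn := ga_n hn
  have ha0' : (1:ℝ) ≤ a := by exact_mod_cast ha0
  have ha1' : (a:ℝ) + 1 ≤ n := by exact_mod_cast ha1
  have e : nu n θ (-j) j - π / (n + 1) - nu n θ (-(j - a)) (j - a)
      = 2 * ga n * a - π / (n + 1) := by
    rw [nu_ga, nu_ga]; push_cast; ring
  rw [WW, L_W hn, dt_E, e]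
  have k : cos (π / (n + 1) - 2 * ga n) ≤ cos (2 * ga n * a - π / (n + 1)) :=
    cos_ge_of (by linarith [al_le hn, be_lt hn, pi_pos]) (by nlinarith) (by nlinarith)
  have hc : 0 < cos (π / (n + 1)) := by linarith [cos_be hn]
  have h3 := n3 hn
  have k2 : cos (π / (n + 1)) ≤ cos (π / (n + 1) - 2 * ga n) :=
    cos_ge_of (by linarith [al_le hn, be_lt hn, pi_pos]) (by nlinarith) (by linarith)
  rw [div_mul_eq_mul_div, le_div_iff₀ hc]
  have h1 := (hh_bd hn hs (j - a)).2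
  have h2 := (hh_bd hn hs j).1
  have h4 := hs.c2
  have h5 := hs.c3
  calc _ ≤ (R n * cos (π / n) + ε * R n) * cos (π / (n + 1)) := by gcongr
    _ ≤ (R n * cos (π / n) - ε * R n) * cos (π / (n + 1) - 2 * ga n) := h4.le
    _ ≤ _ := mul_le_mul h2 k (by linarith) (by linarith)

omit hs in
lemma half' (j : ℤ) {x : ℂ} (hx : x ∈ U n θ ε) : ∃ a : ℤ, 0 ≤ a ∧ a ≤ n ∧
    dt (nu n θ (-(j - a)) (j - a)) x ≤ hh n ε (j - a) := by
  obtain ⟨i, hi⟩ := mem_iUnion.1 hx
  have hk : (0:ℤ) < n + 1 := by omega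
  have h0 := Int.emod_nonneg (i + j) hk.ne'
  have h1 := Int.emod_lt_of_pos (i + j) hk
  refine ⟨(i + j) % (n + 1), h0, by omega, half hn θ ε _ _ ?_⟩
  rw [← poly_per hn θ ε _ ((i + j) / (n + 1))]
  have := Int.emod_add_mul_ediv (i + j) (n + 1)
  rwa [show -(j - (i + j) % (n + 1)) + (n + 1) * ((i + j) / (n + 1)) = i by linarith]

def Gd (n : ℕ) (θ ε : ℝ) (A B : ℂ) : Prop :=
  ∀ s t : ℝ, 0 ≤ s → 0 ≤ t → s • A + t • B ∈ U n θ ε → s + t ≤ 1

lemma gd1 (j : ℤ) : Gd n θ ε (vert n θ ε (-j) j) (WW n θ ε j) := by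
  intro s t h1 h2 hx
  obtain ⟨a, ha0, ha1, h⟩ := half' hn θ j hx
  rw [dt_add, dt_smul, dt_smul] at h
  have g1 := mul_le_mul_of_nonneg_left (G1 hn θ hs j a ha0 (by omega)) h1
  have g2 := mul_le_mul_of_nonneg_left (G3 hn θ hs j a ha0 ha1) h2
  have := hh_pos' hn hs (j - a)
  nlinarith

lemma gd2 (j : ℤ) : Gd n θ ε (WW n θ ε j) (vert n θ ε (-j - 1) (j + 1)) := by
  intro s t h1 h2 hx
  obtain ⟨a, ha0, ha1, h⟩ := half' hn θ j hx
  rw [dt_add, dt_smul, dt_smul] at h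
  have g0 := G1 hn θ hs (j + 1) (a + 1) (by omega) (by omega)
  rw [show j + 1 - (a + 1) = j - a by ring, show -(j + 1) = -j - 1 by ring] at g0
  have g1 := mul_le_mul_of_nonneg_left g0 h2
  have g2 := mul_le_mul_of_nonneg_left (G3 hn θ hs j a ha0 ha1) h1
  have := hh_pos' hn hs (j - a)
  nlinarith

omit hn hs in
lemma gd_front {A B : ℂ} (h : Gd n θ ε A B) (hsub : segment ℝ A B ⊆ U n θ ε) :
    segment ℝ A B ⊆ frontier (U n θ ε) := by
  intro x hx
  refine ⟨subset_closure (hsub hx), fun hi => ?_⟩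
  obtain ⟨s, t, h1, h2, h3, rfl⟩ := hx
  have hc : ContinuousAt (fun l : ℝ => l • (s • A + t • B)) 1 := by fun_prop
  have : ∀ᶠ l in 𝓝 (1:ℝ), l • (s • A + t • B) ∈ U n θ ε := by
    apply hc.eventually_mem
    rw [one_smul]; exact mem_interior_iff_mem_nhds.1 hi
  obtain ⟨l, hl, hl1⟩ := ((this.filter_mono nhdsWithin_le_nhds).and
    (self_mem_nhdsWithin (s := Ioi (1:ℝ)))).exists
  have hl1' : 1 < l := hl1
  rw [smul_add, smul_smul, smul_smul] at hl
  have := h _ _ (by positivity) (by positivity) hl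
  nlinarith

lemma zero_int (i : ℤ) : (0:ℂ) ∈ interior (poly n θ ε i) := by
  refine interior_mono (Metric.ball_subset_closedBall.trans (ball_sub hn θ ε i)) ?_
  rw [Metric.isOpen_ball.interior_eq, Metric.mem_ball, dist_zero_left]
  simp only [norm_smul, norm_E, Real.norm_eq_abs, abs_of_pos (R_pos hn), abs_of_pos hs.pos,
    mul_one]
  exact hs.c3

lemma front_gd {A B x : ℂ} (h : Gd n θ ε A B) {i : ℤ} (hsub : segment ℝ A B ⊆ poly n θ ε i)
    {s t : ℝ} (h1 : 0 ≤ s) (h2 : 0 ≤ t) (e : x = s • A + t • B)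
    (hx : x ∈ frontier (U n θ ε)) : x ∈ segment ℝ A B := by
  have hU : x ∈ U n θ ε := (U_closed hn θ ε).frontier_subset hx
  have h3 := h s t h1 h2 (e ▸ hU)
  rcases h3.eq_or_lt with h3 | h3
  · exact ⟨s, t, h1, h2, h3, e.symm⟩
  exfalso
  apply hx.2
  apply interior_mono (subset_iUnion (poly n θ ε) i)
  rcases (add_nonneg h1 h2).eq_or_lt with h4 | h4
  · have : s = 0 := by linarith
    have : t = 0 := by linarith
    subst_vars
    simpa using zero_int hn θ hs i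
  · have hy : (s / (s + t)) • A + (t / (s + t)) • B ∈ poly n θ ε i :=
      hsub ⟨_, _, by positivity, by positivity, by field_simp, rfl⟩
    have := (convex_convexHull ℝ _).combo_interior_self_mem_interior (zero_int hn θ hs i) hy
      (a := 1 - (s + t)) (b := s + t) (by linarith) h4.le (by ring)
    rw [smul_zero, zero_add, smul_add, smul_smul, smul_smul, mul_div_cancel₀ _ h4.ne',
      mul_div_cancel₀ _ h4.ne'] at this
    rw [e]; exact this

theorem partB : Pat n θ ε := by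
  have hT := T_pos hn
  have m1 : ∀ j, WW n θ ε j ∈ segment ℝ (vert n θ ε (-j) j) (vert n θ ε (-j) (j + 1)) := by
    intro j
    have := mul_pos (hh_pos' hn hs j) hT
    rw [vert_eq1 hn, vert_eq2 hn, mem_seg_L (by linarith)]
    exact ⟨_, (ok_strict hn hs j).1.le, by linarith [(ok_strict hn hs j).2], rfl⟩
  have m2 : ∀ j, WW n θ ε j ∈
      segment ℝ (vert n θ ε (-j - 1) j) (vert n θ ε (-j - 1) (j + 1)) := by
    intro j
    have := mul_pos (hh_pos' hn hs j) hT
    rw [vert_eq1 hn, vert_eq2 hn, mem_seg_L (by linarith)]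
    exact ⟨_, by linarith [(ok_strict hn hs j).1], (ok_strict hn hs j).2.le, WW_eq hn θ ε j⟩
  have hv : ∀ i m, vert n θ ε i m ∈ poly n θ ε i := fun i m => subset_convexHull ℝ _ ⟨m, rfl⟩
  have hcv : ∀ i, Convex ℝ (poly n θ ε i) := fun i => convex_convexHull ℝ _
  have s1 : ∀ j, segment ℝ (vert n θ ε (-j) j) (WW n θ ε j) ⊆ poly n θ ε (-j) := fun j =>
    (hcv _).segment_subset (hv _ _) ((hcv _).segment_subset (hv _ _) (hv _ _) (m1 j))
  have s2 : ∀ j, segment ℝ (WW n θ ε j) (vert n θ ε (-j - 1) (j + 1)) ⊆ poly n θ ε (-j - 1) :=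
    fun j => (hcv _).segment_subset ((hcv _).segment_subset (hv _ _) (hv _ _) (m2 j)) (hv _ _)
  refine ⟨WW n θ ε, fun j => ⟨m1 j, m2 j⟩, Subset.antisymm ?_ ?_⟩
  · intro x hx
    have hg := ga_pos hn
    have hga : ga n = π / n - π / (n + 1) := rfl
    obtain ⟨j, h1, h2⟩ := sector (θ + ga n) (2 * ga n) (by linarith)
      (by linarith [al_le hn, be_pos hn, pi_pos]) x
    have hc : 0 < cos (π / (n + 1)) := by linarith [cos_be hn]
    have hW : ∀ j : ℤ, WW n θ ε j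
        = (hh n ε j / cos (π / (n + 1))) • E (θ + ga n + j * (2 * ga n)) := by
      intro j
      rw [WW, L_W hn, nu_ga]
      congr 2; rw [hga]; ring
    have k1 : 0 ≤ cr (WW n θ ε j) x := by
      rw [hW, cr_smul_left]
      exact mul_nonneg (div_pos (hh_pos' hn hs j) hc).le h1
    have k2 : cr (WW n θ ε (j + 1)) x ≤ 0 := by
      rw [hW, cr_smul_left]
      exact mul_nonpos_of_nonneg_of_nonpos (div_pos (hh_pos' hn hs _) hc).le h2
    rcases le_total (cr (vert n θ ε (-j - 1) (j + 1)) x) 0 with k | k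
    · have c : 0 < cr (WW n θ ε j) (vert n θ ε (-j - 1) (j + 1)) := by
        rw [WW_eq hn, vert_eq2 hn, cr_L]
        exact mul_pos (hh_pos' hn hs j) (by linarith [(ok_strict hn hs j).2])
      obtain ⟨s, t, a1, a2, e⟩ := cone2 c k1 k
      exact mem_iUnion.2 ⟨j, Or.inr (front_gd hn θ hs (gd2 hn θ hs j) (s2 j) a1 a2 e hx)⟩
    · rw [show -j - 1 = -(j + 1) by ring] at k
      have c : 0 < cr (vert n θ ε (-(j + 1)) (j + 1)) (WW n θ ε (j + 1)) := by
        rw [WW, vert_eq1 hn, cr_L]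
        exact mul_pos (hh_pos' hn hs _) (by linarith [(ok_strict hn hs (j + 1)).1])
      obtain ⟨s, t, a1, a2, e⟩ := cone2 c k k2
      exact mem_iUnion.2 ⟨j + 1, Or.inl
        (front_gd hn θ hs (gd1 hn θ hs (j + 1)) (s1 (j + 1)) a1 a2 e hx)⟩
  · refine iUnion_subset fun j => union_subset ?_ ?_
    · exact gd_front θ (gd1 hn θ hs j) ((s1 j).trans (subset_iUnion (poly n θ ε) _))
    · exact gd_front θ (gd2 hn θ hs j) ((s2 j).trans (subset_iUnion (poly n θ ε) _))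

end Pool.Agent.H.MP_ded0ac_co
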